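import Mathlib
import Pool.Agent.H14.Clt

set_option autoImplicit false

namespace Pool.Agent.Results.MP_e841a3_pr.Fisher

open MeasureTheory in
theorem result : ∃ M : ℝ, ∀ C : ℝ, ∃ (n : ℕ) (f g : ℝ → ℝ), 1 ≤ n ∧
    (∀ x, 0 < f x) ∧ (∀ x, 0 < g x) ∧ ContDiff ℝ 1 f ∧ ContDiff ℝ 1 g ∧
    IsProbabilityMeasure (volume.withDensity fun x => ENNReal.ofReal (f x)) ∧
    Integrable (fun x : ℝ => x ^ 4) (volume.withDensity fun x => ENNReal.ofReal (f x)) ∧
    ∫ x, x ∂(volume.withDensity fun x => ENNReal.ofReal (f x)) = 0 ∧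
    ∫ x, x ^ 2 ∂(volume.withDensity fun x => ENNReal.ofReal (f x)) = 1 ∧
    ∫ x, x ^ 4 ∂(volume.withDensity fun x => ENNReal.ofReal (f x)) ≤ M ∧
    (Measure.pi fun _ : Fin n => volume.withDensity fun x => ENNReal.ofReal (f x)).map
      (fun x => (∑ i, x i) / √n) = volume.withDensity (fun x => ENNReal.ofReal (g x)) ∧
    Integrable (fun x => f x * (deriv f x / f x + x) ^ 2) ∧
    Integrable (fun x => g x * (deriv g x / g x + x) ^ 2) ∧
    C / n * ∫ x, f x * (deriv f x / f x + x) ^ 2 <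
      ∫ x, g x * (deriv g x / g x + x) ^ 2 := by
  refine ⟨1160, fun C => ?_⟩
  obtain ⟨n, f, g, h1, h2, h3, h4, h5, h6, h7, h8, h9, h10, h11, h12, h13⟩ :=
    Pool.Agent.H14.Clt.exists_ex C
  exact ⟨n, f, g, h1, h2, h3, h4, h5, h6, h7, h8, h9, h10, h11, h12⟩

end Pool.Agent.Results.MP_e841a3_pr.Fisher
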